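import Pool.Agent.H29.HK.Final1

/-!
# Coloured face numbers of complexes with a mod 2 embedding in a manifold

Let `F` be a family of `m`-element subsets (faces) of the vertex set `0, ..., n-1`, `m ≥ 2`. We say
that `F` has a mod 2 embedding of rank `b` if there are a symmetric bilinear form on `(ℤ/2)^b`, a
vector `y σ` for every face `σ` and numbers modulo 2 `φ ρ τ` such that all disjoint faces `σ`, `τ`
satisfy

  `[σ and τ alternate] + ∑ v ∈ σ, φ (σ - v) τ + ∑ v ∈ τ, φ (τ - v) σ = ⟨y σ, y τ⟩`.

Two disjoint `(m-1)`-simplices on the moment curve of `ℝ^(2m-2)` meet if and only if they alternate,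
and the left side is the number of intersections modulo 2 of `σ` and `τ` under a general position
map to `ℝ^(2m-2)`. This is the criterion of Paták and Tancer for a mod 2 embedding (disjoint faces
meet evenly) of the complex generated by `F` in a closed `(m-2)`-connected manifold of dimension
`2m-2` with the intersection form `⟨ , ⟩` on the middle homology (`b` is the middle Betti number);
for `m = 2` these are the independently even drawings of graphs on closed surfaces.

Let the vertices be coloured with `c` colours and let `N j` be the number of vertices of colour `j`.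
If every face has exactly `a j` vertices of colour `j`, for all `j`, then

  `2 |F| + 2 ∏ j, C(N j - a j - 1, a j) ≤ 2 ∏ j, C(N j, a j) + b ∏ j, C(2 a j, a j)`.

For one colour: `|F| ≤ C(n, m) - C(n - m - 1, m) + C(2m-1, m) b`; if all `m`-sets are faces this is
`C(n - m - 1, m) ≤ C(2m-1, m) b`, the inequality of Heawood for `m = 2` and of the conjecture of
Kühnel in general. For `m = c` colours and `a = 1`: `∏ (N j - 2) ≤ 2^(m-1) b` if all transversals
are faces, e.g. `(s - 2) (t - 2) ≤ 2 b` for the complete bipartite graph.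
-/

set_option autoImplicit false

namespace Pool.Agent.Results.MP_dd083e_co.ColouredFaceNumbers

open Finset

/-- elements of `U` of even rank (the smallest element has rank `0`) -/
def evens {n : ℕ} (U : Finset (Fin n)) : Finset (Fin n) :=
  U.filter (fun u => Even (U.filter (fun w => w < u)).card)

/-- elements of `U` of odd rank -/
def odds {n : ℕ} (U : Finset (Fin n)) : Finset (Fin n) :=
  U.filter (fun u => ¬ Even (U.filter (fun w => w < u)).card)

/-- the disjoint sets `σ` and `τ` alternate -/
def Alternate {n : ℕ} (σ τ : Finset (Fin n)) : Prop :=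
  (σ = evens (σ ∪ τ) ∧ τ = odds (σ ∪ τ)) ∨ (σ = odds (σ ∪ τ) ∧ τ = evens (σ ∪ τ))

open Classical in
/-- the family `F` has a mod 2 embedding of rank `b`: see the head of the file. The value of the
bilinear form with matrix `Q` at `y σ`, `y τ` is written as a double sum -/
def Mod2Embedding {n : ℕ} (F : Finset (Finset (Fin n))) (b : ℕ) : Prop :=
  ∃ (Q : Matrix (Fin b) (Fin b) (ZMod 2)) (y : Finset (Fin n) → Fin b → ZMod 2)
    (φ : Finset (Fin n) → Finset (Fin n) → ZMod 2), Q.IsSymm ∧
    ∀ σ ∈ F, ∀ τ ∈ F, Disjoint σ τ →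
      (if Alternate σ τ then 1 else 0) + ∑ v ∈ σ, φ (σ.erase v) τ + ∑ v ∈ τ, φ (τ.erase v) σ =
        ∑ i, ∑ j, y σ i * Q i j * y τ j

/-- **Coloured face numbers.** Here `κ` is the colouring of the vertices with `c` colours, `a` the
type of the faces and `N j` the number of vertices of colour `j`. -/
theorem result (n c b : ℕ) (κ : Fin n → Fin c) (a N : Fin c → ℕ) (ha : 2 ≤ ∑ j, a j)
    (hN : ∀ j, N j = (univ.filter (fun v => κ v = j)).card)
    (F : Finset (Finset (Fin n)))
    (hF : ∀ σ ∈ F, ∀ j, (σ.filter (fun v => κ v = j)).card = a j)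
    (hM : Mod2Embedding F b) :
    2 * F.card + 2 * ∏ j, (N j - a j - 1).choose (a j) ≤
      2 * ∏ j, (N j).choose (a j) + (∏ j, (2 * a j).choose (a j)) * b := by
  classical
  obtain ⟨Q, y, φ, hQ, h⟩ := hM
  have hD : Pool.Agent.H29.HK.Data F Q y φ := by
    refine ⟨hQ, ?_⟩
    intro σ hσ τ hτ hd
    rw [← h σ hσ τ hτ hd]
    congr 2
    unfold Pool.Agent.H29.HK.alt
    exact if_congr Iff.rfl rfl rfl
  have h1 := Pool.Agent.H29.HK.typed' n c b κ a F Q y φ ha
    (fun σ hσ => mem_filter.2 ⟨mem_univ _, hF σ hσ⟩) hD
  have h2 : ∀ j, Pool.Agent.H29.HK.cls κ j = N j := fun j => (hN j).symm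
  simp only [h2] at h1
  exact h1

end Pool.Agent.Results.MP_dd083e_co.ColouredFaceNumbers
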