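import Pool.Agent.H29.HK.Final6

/-!
# The crossing lemma in all dimensions

Let `K` be a simplicial complex, let `f_j` be the number of its `j`-faces, and let `δ ≥ 1`. If `K`
embeds in `ℝ^(2δ)` then `f_δ ≤ (δ+2) f_(δ-1)`: this is the consequence of the theorem of Kalai and
Sarkaria which is stated in the problem. Here is the statement for maps which are not embeddings.

(1) For every continuous map of `K` to `ℝ^(2δ)`, if `(δ+1) f_δ ≥ (δ+2)^2 f_(δ-1)` then the number of
the (unordered) pairs of disjoint `δ`-faces whose images meet is at least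

  `(δ+1)^(δ+1) / (δ+2)^(2δ+3) · f_δ^(δ+2) / f_(δ-1)^(δ+1)`.

For `δ = 1` this is the crossing lemma for graphs, with the constant `4/243`.

(2) This follows from an inequality for intersection numbers modulo 2. Suppose that we have a
symmetric bilinear form on `(ℤ/2)^b`, a vector `y σ` for every `δ`-face `σ` and numbers modulo 2
`φ ρ τ`. We say that the disjoint `δ`-faces `σ` and `τ` intersect oddly if

  `[σ and τ alternate] + ∑ v ∈ σ, φ (σ - v) τ + ∑ v ∈ τ, φ (τ - v) σ ≠ ⟨y σ, y τ⟩`.

For a general position map to a closed `(δ-1)`-connected manifold of dimension `2δ` with middle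
Betti number `b` and intersection form `⟨ , ⟩` these are the pairs of faces with an odd number of
intersections (the left side is the number of intersections for a map to `ℝ^(2δ)`; two disjoint
`δ`-simplices on the moment curve meet if and only if they alternate). Let `X` be the number of
unordered pairs which intersect oddly. For all `0 ≤ p ≤ 1`

  `p^(δ+1) f_δ ≤ (δ+2) p^δ f_(δ-1) + C(2δ+1, δ+1) b + p^(2δ+2) X`.
-/

set_option autoImplicit false

namespace Pool.Agent.Results.MP_dd083e_co.CrossingLemma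

open Finset

/-- simplicial complex with vertices among `0, ..., n-1`: a family of finsets containing the
empty set and closed under taking subsets -/
def IsComplex {n : ℕ} (L : Finset (Finset (Fin n))) : Prop :=
  ∅ ∈ L ∧ ∀ σ ∈ L, ∀ τ : Finset (Fin n), τ ⊆ σ → τ ∈ L

/-- the geometric realization, in barycentric coordinates -/
def realization {n : ℕ} (L : Finset (Finset (Fin n))) : Set (Fin n → ℝ) :=
  {x | (∀ i, 0 ≤ x i) ∧ ∑ i, x i = 1 ∧ ∃ σ ∈ L, ∀ i, i ∉ σ → x i = 0}

/-- the number of the faces with `j` vertices -/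
def faceNumber {n : ℕ} (L : Finset (Finset (Fin n))) (j : ℕ) : ℕ :=
  (L.filter (fun σ => σ.card = j)).card

/-- the (ordered) pairs of disjoint faces with `δ + 1` vertices whose images meet -/
def meetingPairs {n m : ℕ} (L : Finset (Finset (Fin n))) (δ : ℕ)
    (f : realization L → EuclideanSpace ℝ (Fin m)) : Set (Finset (Fin n) × Finset (Fin n)) :=
  {p | p.1 ∈ L ∧ p.2 ∈ L ∧ p.1.card = δ + 1 ∧ p.2.card = δ + 1 ∧ Disjoint p.1 p.2 ∧
    ∃ x y : realization L, (∀ i, i ∉ p.1 → (x : Fin n → ℝ) i = 0) ∧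
      (∀ i, i ∉ p.2 → (y : Fin n → ℝ) i = 0) ∧ f x = f y}

/-- elements of `U` of even rank (the smallest element has rank `0`) -/
def evens {n : ℕ} (U : Finset (Fin n)) : Finset (Fin n) :=
  U.filter (fun u => Even (U.filter (fun w => w < u)).card)

/-- elements of `U` of odd rank -/
def odds {n : ℕ} (U : Finset (Fin n)) : Finset (Fin n) :=
  U.filter (fun u => ¬ Even (U.filter (fun w => w < u)).card)

/-- the disjoint sets `σ` and `τ` alternate -/
def Alternate {n : ℕ} (σ τ : Finset (Fin n)) : Prop :=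
  (σ = evens (σ ∪ τ) ∧ τ = odds (σ ∪ τ)) ∨ (σ = odds (σ ∪ τ) ∧ τ = evens (σ ∪ τ))

open Classical in
/-- the (ordered) pairs of disjoint faces with `δ + 1` vertices which intersect oddly, see the head
of the file -/
def oddPairs {n : ℕ} (L : Finset (Finset (Fin n))) (δ : ℕ) {b : ℕ}
    (Q : Matrix (Fin b) (Fin b) (ZMod 2)) (y : Finset (Fin n) → Fin b → ZMod 2)
    (φ : Finset (Fin n) → Finset (Fin n) → ZMod 2) : Set (Finset (Fin n) × Finset (Fin n)) :=
  {p | p.1 ∈ L ∧ p.2 ∈ L ∧ p.1.card = δ + 1 ∧ p.2.card = δ + 1 ∧ Disjoint p.1 p.2 ∧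
    (if Alternate p.1 p.2 then 1 else 0) + ∑ v ∈ p.1, φ (p.1.erase v) p.2 +
      ∑ v ∈ p.2, φ (p.2.erase v) p.1 ≠ ∑ i, ∑ j, y p.1 i * Q i j * y p.2 j}

/-- **The crossing lemma** for continuous maps to `ℝ^(2δ)` and for intersections modulo 2. The two
sets of pairs consist of ordered pairs, which gives the factors `2`. -/
theorem result (n δ : ℕ) (hδ : 1 ≤ δ) (K : Finset (Finset (Fin n))) (hK : IsComplex K) :
    (∀ f : realization K → EuclideanSpace ℝ (Fin (2 * δ)), Continuous f →
      (δ + 2) ^ 2 * faceNumber K δ ≤ (δ + 1) * faceNumber K (δ + 1) →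
      2 * (δ + 1) ^ (δ + 1) * faceNumber K (δ + 1) ^ (δ + 2) ≤
        (δ + 2) ^ (2 * δ + 3) * faceNumber K δ ^ (δ + 1) *
          (meetingPairs K δ f).ncard) ∧
    (∀ (b : ℕ) (Q : Matrix (Fin b) (Fin b) (ZMod 2)) (y : Finset (Fin n) → Fin b → ZMod 2)
      (φ : Finset (Fin n) → Finset (Fin n) → ZMod 2) (p : ℝ), Q.IsSymm → 0 ≤ p → p ≤ 1 →
      2 * (p ^ (δ + 1) * faceNumber K (δ + 1)) ≤
        2 * ((δ + 2) * p ^ δ * faceNumber K δ + ((2 * δ + 1).choose (δ + 1) : ℝ) * b) +
          p ^ (2 * δ + 2) * (oddPairs K δ Q y φ).ncard) := by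
  classical
  refine ⟨?_, ?_⟩
  · intro f hf h
    let g : (Fin n → ℝ) → (Fin (2 * δ) → ℝ) := fun x =>
      if hx : x ∈ realization K then (fun i => f ⟨x, hx⟩ i) else 0
    have hg : ContinuousOn g (Pool.Agent.W289.KS.rea K) := by
      rw [continuousOn_iff_continuous_domRestrict]
      have h0 : Continuous (fun x : realization K => (fun i => f x i : Fin (2 * δ) → ℝ)) :=
        continuous_pi fun i => (PiLp.continuous_apply 2 _ i).comp hf
      refine h0.congr ?_
      intro x
      have hx : (x : Fin n → ℝ) ∈ realization K := x.2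
      show _ = g x
      simp only [g]
      rw [dif_pos hx]
    have h1 := Pool.Agent.H29.HK.cross' n δ hδ K g hK hg h
    have h2 : ((Pool.Agent.H29.HK.badP δ K g : Finset _) :
        Set (Finset (Fin n) × Finset (Fin n))) ⊆ meetingPairs K δ f := by
      rintro ⟨σ, τ⟩ hp
      unfold Pool.Agent.H29.HK.badP at hp
      rw [mem_coe, mem_filter] at hp
      obtain ⟨-, hσ, hτ, hc, hc', hd, hb⟩ := hp
      refine ⟨hσ, hτ, hc, hc', hd, ?_⟩
      by_contra hcon
      apply hb
      unfold Pool.Agent.H29.HK.goodP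
      rw [mem_filter]
      refine ⟨mem_univ _, hσ, hτ, hd, ?_⟩
      intro x hx y hy h3 h4 h5
      apply hcon
      have hx' : x ∈ realization K := hx
      have hy' : y ∈ realization K := hy
      refine ⟨⟨x, hx'⟩, ⟨y, hy'⟩, h3, h4, ?_⟩
      ext i
      have h6 := congrFun h5 i
      simp only [g] at h6
      rw [dif_pos hx', dif_pos hy'] at h6
      exact h6
    have h3 : (Pool.Agent.H29.HK.badP δ K g).card ≤ (meetingPairs K δ f).ncard := by
      rw [← Set.ncard_coe_finset]
      exact Set.ncard_le_ncard h2 (Set.toFinite _)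
    exact h1.trans (Nat.mul_le_mul_left _ h3)
  · intro b Q y φ p hQ h0 h1
    have h2 := Pool.Agent.H29.HK.oddP' n δ b K Q y φ p hδ hK hQ h0 h1
    have h3 : ((Pool.Agent.H29.HK.oddP (K.filter (fun σ => σ.card = δ + 1)) Q y φ : Finset _) :
        Set (Finset (Fin n) × Finset (Fin n))) = oddPairs K δ Q y φ := by
      ext ⟨σ, τ⟩
      simp only [Pool.Agent.H29.HK.oddP, coe_filter, mem_product, mem_filter, oddPairs,
        Set.mem_ofPred_eq]
      have e : Pool.Agent.H29.HK.alt σ τ = if Alternate σ τ then 1 else 0 := by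
        unfold Pool.Agent.H29.HK.alt
        exact if_congr Iff.rfl rfl rfl
      rw [e]
      tauto
    rw [← h3, Set.ncard_coe_finset]
    have e1 : 2 * (p ^ (δ + 1) * (faceNumber K (δ + 1) : ℝ)) =
        2 * p ^ (δ + 1) * ((K.filter (fun σ => σ.card = δ + 1)).card : ℝ) := by
      unfold faceNumber; ring
    rw [e1]
    exact h2

end Pool.Agent.Results.MP_dd083e_co.CrossingLemma
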