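import Pool.Agent.H29.HK.Final2
import Pool.Graph.R_seed8.Y131.KS.Alm

/-!
# The Kalai-Sarkaria theorem for complexes with a mod 2 embedding in a manifold

Let `K` be a simplicial complex of dimension at most `δ` with vertices `0, ..., n-1`, `δ ≥ 1`,
`n ≥ 2δ + 2`. We say that `K` has a mod 2 embedding of rank `b` if there are a symmetric bilinear
form on `(ℤ/2)^b` (the intersection form), a vector `y σ` for every `δ`-face `σ` (a middle homology
class) and numbers modulo 2 `φ ρ τ` (finger moves of the face `τ` over the `(δ-1)`-face `ρ`) such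
that all disjoint `δ`-faces `σ`, `τ` satisfy

  `[σ and τ alternate] + ∑ v ∈ σ, φ (σ - v) τ + ∑ v ∈ τ, φ (τ - v) σ = ⟨y σ, y τ⟩`.

Two disjoint `δ`-simplices on the moment curve of `ℝ^(2δ)` meet if and only if they alternate; the
left side is the number of intersections modulo 2 of `σ` and `τ` under a general position map to
`ℝ^(2δ)`. This is the criterion of Paták and Tancer for a mod 2 embedding (general position map for
which the images of disjoint `δ`-faces intersect evenly) of the `δ`-skeleton in a closed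
`(δ-1)`-connected manifold of dimension `2δ` with intersection form `⟨ , ⟩` on the middle
homology; for `δ = 1` these are the independently even drawings of graphs on closed surfaces.

The theorem: at most `C(2δ+1, δ+1) b` faces of the symmetric algebraic shifting of `K` are not in the
symmetric shifting of the boundary of the cyclic polytope `C(2δ+1, n)`. Complexes which (almost)
embed in the sphere `S^(2δ)` have mod 2 embeddings of rank `0`.
-/

set_option autoImplicit false

namespace Pool.Agent.Results.MP_dd083e_co.ManifoldShifting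

open Finset MvPolynomial

/-- simplicial complex with vertices among `0, ..., n-1`: a family of finsets containing the
empty set and closed under taking subsets -/
def IsComplex {n : ℕ} (L : Finset (Finset (Fin n))) : Prop :=
  ∅ ∈ L ∧ ∀ σ ∈ L, ∀ τ : Finset (Fin n), τ ⊆ σ → τ ∈ L

/-- the geometric realization, in barycentric coordinates -/
def realization {n : ℕ} (L : Finset (Finset (Fin n))) : Set (Fin n → ℝ) :=
  {x | (∀ i, 0 ≤ x i) ∧ ∑ i, x i = 1 ∧ ∃ σ ∈ L, ∀ i, i ∉ σ → x i = 0}

/-- `L` almost embeds in `S^(d-1)`, the unit sphere of `ℝ^d`: there is a continuous map such that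
points of disjoint faces have different images (for example, an embedding) -/
def AlmostEmbeds {n : ℕ} (L : Finset (Finset (Fin n))) (d : ℕ) : Prop :=
  ∃ f : realization L → Metric.sphere (0 : EuclideanSpace ℝ (Fin d)) 1, Continuous f ∧
    ∀ x y : realization L, (∀ i, (x : Fin n → ℝ) i = 0 ∨ (y : Fin n → ℝ) i = 0) → f x ≠ f y

open Classical in
/-- the boundary complex of the cyclic `d`-polytope with the `n` vertices `(i, i^2, ..., i^d)`,
`i < n`: the proper subsets `S` which are the set of all vertices on a supporting hyperplane -/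
noncomputable def cyclicBoundary (n d : ℕ) : Finset (Finset (Fin n)) :=
  univ.filter (fun S => S ≠ univ ∧ ∃ a : Fin d → ℝ, ∃ c : ℝ,
    (∀ i ∈ S, ∑ j : Fin d, a j * ((i : ℕ) : ℝ) ^ ((j : ℕ) + 1) = c) ∧
    (∀ i : Fin n, i ∉ S → ∑ j : Fin d, a j * ((i : ℕ) : ℝ) ^ ((j : ℕ) + 1) < c))

/-- the Stanley-Reisner ideal, generated by the squarefree monomials of the non-faces -/
noncomputable def srIdeal {n : ℕ} (k : Type*) [Field k] (L : Finset (Finset (Fin n))) :
    Ideal (MvPolynomial (Fin n) k) :=
  Ideal.span {p | ∃ σ : Finset (Fin n), σ ∉ L ∧ p = ∏ v ∈ σ, X v}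

/-- degree reverse lexicographic order with `x_0 > x_1 > ...`: `RevLT m m'` means `m < m'` -/
def RevLT {n : ℕ} (m m' : Fin n →₀ ℕ) : Prop :=
  m.degree < m'.degree ∨ (m.degree = m'.degree ∧ ∃ j, m' j < m j ∧ ∀ i, j < i → m i = m' i)

/-- the monomials of the initial ideal of the ideal `J`: the leading monomials of its elements -/
def inSet {n : ℕ} {k : Type*} [Field k] (J : Ideal (MvPolynomial (Fin n) k)) :
    Set (Fin n →₀ ℕ) :=
  {m | ∃ f ∈ J, coeff m f ≠ 0 ∧ ∀ m' ∈ f.support, m' ≠ m → RevLT m' m}

/-- the linear substitution `x_i ↦ ∑_j g_ij x_j` -/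
noncomputable def linSubst {n : ℕ} {k : Type*} [Field k] (g : Fin n × Fin n → k) :
    MvPolynomial (Fin n) k →ₐ[k] MvPolynomial (Fin n) k :=
  aeval (fun i => ∑ v, C (g (i, v)) * X v)

/-- the ideal `I` written in the coordinates `y_i = ∑_j g_ij x_j`: all `f` with `f(y) ∈ I` -/
noncomputable def coordIdeal {n : ℕ} {k : Type*} [Field k] (g : Fin n × Fin n → k)
    (I : Ideal (MvPolynomial (Fin n) k)) : Ideal (MvPolynomial (Fin n) k) :=
  I.comap (linSubst g)

/-- the monomials of the generic initial ideal: those in the initial ideal of `I` written in the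
coordinates given by `g`, for all invertible `g` outside some proper hypersurface -/
def ginSet {n : ℕ} {k : Type*} [Field k] (I : Ideal (MvPolynomial (Fin n) k)) :
    Set (Fin n →₀ ℕ) :=
  {m | ∃ F : MvPolynomial (Fin n × Fin n) k, F ≠ 0 ∧ ∀ g : Fin n × Fin n → k,
    (Matrix.of (fun i j => g (i, j))).det ≠ 0 → eval g F ≠ 0 → m ∈ inSet (coordIdeal g I)}

/-- the list of the indices of the variables of `m`, with multiplicity, in increasing order -/
noncomputable def idxList {n : ℕ} (m : Fin n →₀ ℕ) : List ℕ :=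
  (Multiset.map (fun i : Fin n => (i : ℕ)) (Finsupp.toMultiset m)).sort (· ≤ ·)

/-- `φ(m)`: the `i`-th index (counted from `0`, in increasing order) is increased by `i` -/
noncomputable def phi {n : ℕ} (m : Fin n →₀ ℕ) : Finset ℕ :=
  univ.image (fun i : Fin (idxList m).length => (idxList m).get i + (i : ℕ))

/-- the symmetric algebraic shifting `K^s` of `K` over `k` (vertices `0, ..., n-1`) -/
def shift {n : ℕ} (k : Type*) [Field k] (K : Finset (Finset (Fin n))) : Set (Finset ℕ) :=
  {S | ∃ m : Fin n →₀ ℕ, m ∉ ginSet (srIdeal k K) ∧ (∀ x ∈ phi m, x < n) ∧ S = phi m}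

/-! ### mod 2 embeddings -/

/-- elements of `U` of even rank (the smallest element has rank `0`) -/
def evens {n : ℕ} (U : Finset (Fin n)) : Finset (Fin n) :=
  U.filter (fun u => Even (U.filter (fun w => w < u)).card)

/-- elements of `U` of odd rank -/
def odds {n : ℕ} (U : Finset (Fin n)) : Finset (Fin n) :=
  U.filter (fun u => ¬ Even (U.filter (fun w => w < u)).card)

/-- the disjoint sets `σ` and `τ` alternate -/
def Alternate {n : ℕ} (σ τ : Finset (Fin n)) : Prop :=
  (σ = evens (σ ∪ τ) ∧ τ = odds (σ ∪ τ)) ∨ (σ = odds (σ ∪ τ) ∧ τ = evens (σ ∪ τ))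

open Classical in
/-- `K` has a mod 2 embedding of rank `b`: see the head of the file. The value of the bilinear form
with matrix `Q` at `y σ`, `y τ` is written as a double sum -/
def Mod2Embedding {n : ℕ} (K : Finset (Finset (Fin n))) (δ b : ℕ) : Prop :=
  ∃ (Q : Matrix (Fin b) (Fin b) (ZMod 2)) (y : Finset (Fin n) → Fin b → ZMod 2)
    (φ : Finset (Fin n) → Finset (Fin n) → ZMod 2), Q.IsSymm ∧
    ∀ σ ∈ K, ∀ τ ∈ K, σ.card = δ + 1 → τ.card = δ + 1 → Disjoint σ τ →
      (if Alternate σ τ then 1 else 0) + ∑ v ∈ σ, φ (σ.erase v) τ + ∑ v ∈ τ, φ (τ.erase v) σ =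
        ∑ i, ∑ j, y σ i * Q i j * y τ j

/-- **Symmetric shifting of complexes with a mod 2 embedding of rank `b`**: at most
`C(2δ+1, δ+1) b` faces of `K^s` are not faces of the symmetric shifting of the boundary of the
cyclic polytope. Complexes which almost embed in `S^(2δ)` have rank `0`. -/
theorem result (k : Type) [Field k] [Infinite k] (hk : CharZero k ∨ CharP k 2) (n δ b : ℕ)
    (hδ : 1 ≤ δ) (hn : 2 * δ + 2 ≤ n) (K : Finset (Finset (Fin n))) (hK : IsComplex K)
    (hdim : ∀ σ ∈ K, σ.card ≤ δ + 1) :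
    (Mod2Embedding K δ b →
      (shift k K \ shift k (cyclicBoundary n (2 * δ + 1))).Finite ∧
      (shift k K \ shift k (cyclicBoundary n (2 * δ + 1))).ncard ≤
        (2 * δ + 1).choose (δ + 1) * b) ∧
    (AlmostEmbeds K (2 * δ + 1) → Mod2Embedding K δ 0) := by
  classical
  refine ⟨?_, ?_⟩
  · rintro ⟨Q, y, φ, hQ, h⟩
    have hD : Pool.Agent.H29.HK.Data (K.filter (fun σ => σ.card = δ + 1)) Q y φ := by
      refine ⟨hQ, ?_⟩
      intro σ hσ τ hτ hd
      rw [mem_filter] at hσ hτ
      have h1 := h σ hσ.1 τ hτ.1 hσ.2 hτ.2 hd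
      rw [← h1]
      congr 2
      unfold Pool.Agent.H29.HK.alt
      exact if_congr Iff.rfl rfl rfl
    exact Pool.Agent.H29.HK.total' k hk n δ b K Q y φ hδ (by omega) hK hdim hD
  · intro hA
    obtain ⟨f, hf, hi⟩ := hA
    have hc : Pool.Agent.W555.KS.ConeEmb K (2 * δ + 1) := by
      refine Pool.Agent.Y131.KS.cone_of_almost K
        (fun x => if hx : x ∈ realization K then
          (f ⟨x, hx⟩ : EuclideanSpace ℝ (Fin (2 * δ + 1))) else 0) ?_ ?_ ?_
      · rw [continuousOn_iff_continuous_domRestrict]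
        have h0 : Continuous (fun x : realization K =>
            (f x : EuclideanSpace ℝ (Fin (2 * δ + 1)))) := continuous_subtype_val.comp hf
        refine h0.congr ?_
        intro x
        have hx : (x : Fin n → ℝ) ∈ realization K := x.2
        show (f x : EuclideanSpace ℝ (Fin (2 * δ + 1))) =
          if hx : (x : Fin n → ℝ) ∈ realization K then
            (f ⟨(x : Fin n → ℝ), hx⟩ : EuclideanSpace ℝ (Fin (2 * δ + 1))) else 0
        rw [dif_pos hx]
      · intro x hx
        have hx' : x ∈ realization K := hx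
        rw [dif_pos hx']
        exact mem_sphere_zero_iff_norm.1 (f ⟨x, hx'⟩).2
      · intro x hx y hy hxy he
        have hx' : x ∈ realization K := hx
        have hy' : y ∈ realization K := hy
        rw [dif_pos hx', dif_pos hy'] at he
        exact hi ⟨x, hx'⟩ ⟨y, hy'⟩ hxy (Subtype.ext he)
    have hV := Pool.Agent.Y131.KS.vk2_of_odd (L := K) (d := 2 * δ + 1) hK
      (Pool.Agent.Y131.KS.odd_of_coneEmb (L := K) (d := 2 * δ + 1) hK hc)
    obtain ⟨φ, hφ⟩ := Pool.Agent.H29.HK.dual (q := δ) K hdim hV
    refine ⟨0, fun _ _ => 0, φ, Matrix.isSymm_zero, ?_⟩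
    intro σ hσ τ hτ h1 h2 hd
    have h3 := hφ.2 σ (mem_filter.2 ⟨hσ, h1⟩) τ (mem_filter.2 ⟨hτ, h2⟩) hd
    rw [← h3]
    congr 2
    unfold Pool.Agent.H29.HK.alt
    exact if_congr Iff.rfl rfl rfl

end Pool.Agent.Results.MP_dd083e_co.ManifoldShifting
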